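import Mathlib
import Pool.Agent.Zk94.LP.End

/-!
# Twists by primes: sections of `π₁` which lift to the cuspidally abelian quotient

For a squarefree integer `D` let `C_D` be the smooth projective curve of genus `2` with the equation

  `D y² = u (u² - 1) (u² - 9)`.

It has the six rational Weierstrass points with `u = 0, 1, -1, 3, -3, ∞`.  Let `p` be a prime number and

* `D = p`, if `p ≡ 5` or `11` modulo `24` and `p ≠ 5`,
* `D = 2 p`, if `p ≡ 7` or `19` modulo `24`.

So half of all prime numbers occur.  We prove, without any unproved hypothesis (nothing is assumed about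
ranks and Tate–Shafarevich groups) and with no exceptional curves, for every one of these curves and for
every curve over `ℚ` with a nonconstant map to it (for example `C_D` itself, proper or with points
removed), with function field `F` and set `U` of local rings at closed points:

*Let `s` be a section of `π₁(U) = Gal(F_U/F) → G_ℚ`, and suppose that `s` lifts to a section of
`Gal(N/F) → G_ℚ` which is given by a local point or a cusp over `ℚ_q` for all primes `q`, where `N`
contains the maximal abelian extension of `F_U`; for example `Gal(N/F)` is the cuspidally abelian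
fundamental group, the largest quotient of `G_F` with abelian kernel over `π₁(U)`.  Then `s` is the
section of a rational point of `U`, or a cuspidal section attached to a rational point outside `U`, and
this point lies over one of the Weierstrass points of `C_D`.*

In particular (second clause, with the theorem of Koenigsmann, which is proved in the library) every
section of `π₁(U)` which lifts to a section of the absolute Galois group `G_F`, without any condition
on local points, is the section of a rational point or a cuspidal one.  For `U = C_D` this says: a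
section of `π₁(C_D) → G_ℚ` is the section of one of the rational points of `C_D` if and only if it lifts
to a birational section, and if and only if it lifts to a locally geometric section of the cuspidally
abelian fundamental group; the rational points in question are the six Weierstrass points.

Proof.  The local point at `2` and the arithmetic of the classes modulo `2` at the primes `2`, `3`, `5`,
`p` show that the section has modulo 2 the type of one Weierstrass point; this is the theorem on the
types of the sections which is used in `PrimeTwists`.  With this input the argument of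
`LiftableSections` (helper47) applies: Fermat's descent on the elliptic curve of
conductor 24 over the fixed field of the section, the Kummer classes of the functions
`(x - e_l) / (x - e_l')`, `x = 30 / (u + 2)`, in the fixed field of the lifted section, and the
construction of the rational place with an ultrafilter.
-/

set_option autoImplicit false

open IsDedekindDomain NumberField Pool.Agent.W620.SC Pool.Agent.TH954

namespace Pool.Agent.Results.MP_2f3286_ag.LiftablePrimeTwists

/-- The condition on `D`: let `F` be a function field of one variable over `ℚ` with elements `u`, `y`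
such that `u` is transcendental over `ℚ` and `D y² = u (u² - 1) (u² - 9)`.  Let `U` be a set of
valuation rings of `F` over `ℚ`, and `M` the maximal extension `F_U` of `F` in an algebraic closure
`Ω` which is unramified over the elements of `U`.  Let `N` be an algebraic extension of `F` and
`φ : M → N` an embedding, such that the elements of `M` have `n`-th roots in `N` for all `n`.
Let `s'` be a continuous section of `Gal(N/F) → G_ℚ` which lifts the section `s` of `Gal(M/F) → G_ℚ`
and which is given by a place over all completions `ℚ_q`.  Then `s` arises from a rational point `O` of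
`F`, and there `u` is `∞`, `0`, `1`, `-1`, `3` or `-3`. -/
def Liftable (D : ℤ) : Prop :=
  ∀ (F Ω M N B : Type) [Field F] [Field Ω] [Field M] [Field N] [Field B] [Algebra ℚ F]
    [Algebra F Ω] [Algebra ℚ Ω] [Algebra F M] [Algebra ℚ M] [Algebra F N] [Algebra ℚ N]
    [Algebra ℚ B] [IsScalarTower ℚ F Ω] [IsScalarTower ℚ F M] [IsScalarTower ℚ F N]
    [Algebra.IsAlgebraic F N] [IsAlgClosure F Ω] [IsAlgClosure ℚ B]
    (u y : F) (U : Set (ValuationSubring F)) (ι : M →ₐ[F] Ω) (φ : M →ₐ[F] N),
    (∀ O ∈ U, ∀ c : ℚ, algebraMap ℚ F c ∈ O) → ι.fieldRange = unramified F Ω U →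
    (∀ (z : M) (n : ℕ), 0 < n → ∃ w : N, w ^ n = φ z) →
    Transcendental ℚ u → Algebra.IsAlgebraic (IntermediateField.adjoin ℚ {u}) F →
    (D : F) * y ^ 2 = u * (u ^ 2 - 1) * (u ^ 2 - 9) →
    ∀ (s : GalSection ℚ F M B) (s' : GalSection ℚ F N B),
      (∀ g z, φ (s.s g z) = s'.s g (φ z)) →
      (∀ v : HeightOneSpectrum (𝓞 ℚ), s'.GeometricOver (v.adicCompletion ℚ)
        (AlgebraicClosure (v.adicCompletion ℚ))) →
      ∃ O : ValuationSubring F, s.ArisesFrom O ∧
        (u ∉ O ∨ ∃ e ∈ ({0, 1, -1, 3, -3} : Set ℤ), (u - (e : F))⁻¹ ∉ O)

/-- The same for the sections of `Gal(M/F) → G_ℚ` which lift to a continuous section of the absolute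
Galois group `Gal(Ω/F) → G_ℚ`, without any condition on local points. -/
def BirationallyLiftable (D : ℤ) : Prop :=
  ∀ (F Ω M B : Type) [Field F] [Field Ω] [Field M] [Field B] [Algebra ℚ F]
    [Algebra F Ω] [Algebra ℚ Ω] [Algebra F M] [Algebra ℚ M]
    [Algebra ℚ B] [IsScalarTower ℚ F Ω] [IsScalarTower ℚ F M]
    [IsAlgClosure F Ω] [IsAlgClosure ℚ B]
    (u y : F) (U : Set (ValuationSubring F)) (ι : M →ₐ[F] Ω),
    (∀ O ∈ U, ∀ c : ℚ, algebraMap ℚ F c ∈ O) → ι.fieldRange = unramified F Ω U →
    Transcendental ℚ u → Algebra.IsAlgebraic (IntermediateField.adjoin ℚ {u}) F →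
    (D : F) * y ^ 2 = u * (u ^ 2 - 1) * (u ^ 2 - 9) →
    ∀ (s : GalSection ℚ F M B) (s' : GalSection ℚ F Ω B),
      (∀ g z, ι (s.s g z) = s'.s g (ι z)) →
      ∃ O : ValuationSubring F, s.ArisesFrom O ∧
        (u ∉ O ∨ ∃ e ∈ ({0, 1, -1, 3, -3} : Set ℤ), (u - (e : F))⁻¹ ∉ O)

lemma birational_of {D : ℤ} (h : Liftable D) : BirationallyLiftable D := by
  intro F Ω M B _ _ _ _ _ _ _ _ _ _ _ _ _ _ u y U ι hU hι hu hF huy s s' hcomp
  have hcl : IsAlgClosed Ω := IsAlgClosure.isAlgClosed F
  have halg : Algebra.IsAlgebraic F Ω := IsAlgClosure.isAlgebraic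
  exact h F Ω M Ω B u y U ι ι hU hι (fun z n hn => IsAlgClosed.exists_pow_nat_eq (ι z) hn) hu hF
    huy s s' hcomp (Pool.Agent.Zk49.locallyGeometric s')

lemma liftable_of {d D : ℤ} {r : ℚ} (hdD : (30 : ℚ) ^ 5 * D = d * r ^ 2)
    (hT : Pool.Agent.Zk94.PT.HasType d) : Liftable D ∧ BirationallyLiftable D := by
  have hf : ∀ j : Fin 5, Pool.Agent.Zk94.PT.fp5 j ∈ ({0, 1, -1, 3, -3} : Set ℤ) := by
    intro j
    fin_cases j <;> simp [Pool.Agent.Zk94.PT.fp5]
  have h1 : Liftable D := by
    intro F Ω M N B _ _ _ _ _ _ _ _ _ _ _ _ _ _ _ _ _ _ _ u y U ι φ hU hι hroot hu hF huy s s'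
      hcomp hgeo
    obtain ⟨O, hO, h⟩ := Pool.Agent.Zk94.LP.liftU hdD hT F Ω M N B u y U ι φ hU hι hroot hu hF huy
      s s' hcomp hgeo
    refine ⟨O, hO, ?_⟩
    rcases h with h | ⟨j, hj⟩
    · exact Or.inl h
    · refine Or.inr ⟨_, hf j, ?_⟩
      rwa [map_intCast] at hj
  exact ⟨h1, birational_of h1⟩

/-- **Twists by primes: sections of `π₁` which lift to the cuspidally abelian quotient.** -/
theorem result : ∀ p : ℕ, p.Prime →
    ((p % 24 = 5 ∨ p % 24 = 11) → p ≠ 5 → Liftable p ∧ BirationallyLiftable p) ∧
    ((p % 24 = 7 ∨ p % 24 = 19) → Liftable (2 * p) ∧ BirationallyLiftable (2 * p)) := by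
  intro p hp
  constructor
  · intro h h5
    refine liftable_of (d := ((30 * p : ℕ) : ℤ)) (r := 900) (by push_cast; ring) ?_
    rcases h with h | h
    · exact Pool.Agent.Zk94.PT.type5 hp h h5
    · exact Pool.Agent.Zk94.PT.type11 hp h
  · intro h
    refine liftable_of (d := ((15 * p : ℕ) : ℤ)) (r := 1800) (by push_cast; ring) ?_
    rcases h with h | h
    · exact Pool.Agent.Zk94.PT.type7 hp h
    · exact Pool.Agent.Zk94.PT.type19 hp h

end Pool.Agent.Results.MP_2f3286_ag.LiftablePrimeTwists
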