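import Pool.Agent.Zk47.BS.LiftEx
import Pool.Agent.Zk47.BS.Cons

/-!
# Almost all quadratic twists: sections of `π₁` which lift to the cuspidally abelian quotient

Let `N ≥ 6` be even and let `e_1, …, e_N` be different integers.  For squarefree `d` let `C_d` be the
curve `d y² = ∏ (x - e_i)` of genus `(N - 2) / 2`, with its rational points `P_i = (e_i, 0)`.  Suppose
that for every `i` four of the numbers `1 / (e_l - e_i)`, `l ≠ i`, form an arithmetic progression, and
the condition `CrossRatio` below.  This is so for `0, 6, 10, 15, 30, -30` (genus `2`) and for the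
consecutive integers `0, 1, …, N - 1` for every even `N ≥ 16`, that is, for the quadratic twists

  `d y² = x (x - 1) ⋯ (x - N + 1)`

of the Erdős–Selfridge curves (genus `7, 8, 9, …`).

We prove without any unproved hypothesis: for all squarefree `d`, `|d| ≤ X`, with at most
`C X (log X)^(-1/5)` exceptions, the following holds for every curve over `ℚ` with a nonconstant map
to `C_d` (for example `C_d` itself, proper or with points removed), with function field `F` and set
`U` of local rings at closed points.

*Let `s` be a section of `π₁(U) = Gal(F_U/F) → G_ℚ`, and suppose that `s` lifts to a section of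
`Gal(N/F) → G_ℚ` which is given by a local point or a cusp over `ℚ_p` for all `p`, where `N` contains
the maximal abelian extension of `F_U`; for example `Gal(N/F)` is the cuspidally abelian fundamental
group, the largest quotient of `G_F` with abelian kernel over `π₁(U)`.  Then `s` is the section of a
rational point of `U`, or a cuspidal section attached to a rational point outside `U`, and this point
lies over one of the `P_i`.*

In particular (second clause, with the theorem of Koenigsmann, which is proved in the library) every
section of `π₁(U)` which lifts to a section of the absolute Galois group `G_F`, without any condition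
on local points, is the section of a rational point or a cuspidal one: for these curves the
section conjecture holds for the birationally liftable sections.  So for these curves the section
conjecture is reduced to a question about liftings, the conjecture on the cuspidalisation of
sections.

Nothing is assumed about ranks and Tate–Shafarevich groups.

Proof.  By a theorem of the starting library (helper623, helper262), for almost all `d` every section
has modulo 2 the type of one branch point `P_i`.  By the four branch points `l` of the arithmetic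
progression one finds, with coordinates in the fixed field `L` of `s`, a nonconstant point `Q` on the
elliptic curve `E : y² = (x - 10) (x - 6) (x + 6)` of conductor 24, and Fermat's descent works for the
points of `E` over `L`, using the place over `ℚ₂`, so that `Q` is divisible by all powers of `2` up to
points of finite order (see `TwistsLocalAtTwo`).  It follows that the function
`f = (x - e_l) / (x - e_l')`, normalised to the value `1` at `P_i`, is `1` at the place over `ℚ₂` and
that it is a unit at all the places over `ℚ_p`, `p ≥ 5`, and finite and not zero over `ℚ_3`.  In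
`N` the function `f` has `n`-th roots for all `n`, and by Hilbert's Theorem 90 it is a rational number
`c_n` times the `n`-th power of an element fixed by the lifted section.  So the `c_n` are, modulo
`n`-th powers, products of `-1` and powers of `2` and `3`, and then the value of `f` is `1` at all `p`.
Hence `x = e_i` at all the local points.  Now let `u` be any function in the fixed field `L`; it is
algebraic over `ℚ(x - e_i)`, so that it has only finitely many values at the local points.
If it has the value `a` for infinitely many `p`, then Kummer theory for `u - a` in the field `N`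
shows that the value is rational, and the rational place is obtained with an ultrafilter
(following helper954, where all fields are algebraically closed).
-/

set_option autoImplicit false

open IsDedekindDomain NumberField Pool.Agent.W620.SC Pool.Agent.TH954

namespace Pool.Agent.Results.MP_2f3286_ag.LiftableSections

/-- The condition on `d`: let `F` be a function field of transcendence degree one over `ℚ` with
elements `x`, `y` such that `x` is not constant and `d y² = ∏ (x - e_i)`.  Let `U` be a set of
valuation rings of `F` over `ℚ`, and `M` the maximal extension `F_U` of `F` in an algebraic closure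
`Ω` which is unramified over the elements of `U`.  Let `N` be an algebraic extension of `F` and
`φ : M → N` an embedding, such that the elements of `M` have `n`-th roots in `N` for all `n`.
Let `s'` be a section of `Gal(N/F) → G_ℚ` which lifts the section `s` of `Gal(M/F) → G_ℚ` and which is
given by a place over all completions `ℚ_p`.  Then `s` comes from the decomposition group of a place
with residue field `ℚ`, above one of the points `x = e_i`. -/
def Liftable {K : Type} [Fintype K] (e : K → ℤ) (d : ℤ) : Prop :=
  ∀ (F Ω M N B : Type) [Field F] [Field Ω] [Field M] [Field N] [Field B] [Algebra ℚ F]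
    [Algebra F Ω] [Algebra ℚ Ω] [Algebra F M] [Algebra ℚ M] [Algebra F N] [Algebra ℚ N]
    [Algebra ℚ B] [IsScalarTower ℚ F Ω] [IsScalarTower ℚ F M] [IsScalarTower ℚ F N]
    [Algebra.IsAlgebraic F N] [IsAlgClosure F Ω] [IsAlgClosure ℚ B]
    (x y : F) (U : Set (ValuationSubring F)) (ι : M →ₐ[F] Ω) (φ : M →ₐ[F] N),
    (∀ O ∈ U, ∀ c : ℚ, algebraMap ℚ F c ∈ O) → ι.fieldRange = unramified F Ω U →
    (∀ (z : M) (n : ℕ), 0 < n → ∃ w : N, w ^ n = φ z) →
    Transcendental ℚ x → Algebra.IsAlgebraic (IntermediateField.adjoin ℚ {x}) F →
    (d : F) * y ^ 2 = ∏ i, (x - (e i : F)) →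
    ∀ (s : GalSection ℚ F M B) (s' : GalSection ℚ F N B),
      (∀ g z, φ (s.s g z) = s'.s g (φ z)) →
      (∀ v : HeightOneSpectrum (𝓞 ℚ), s'.GeometricOver (v.adicCompletion ℚ)
        (AlgebraicClosure (v.adicCompletion ℚ))) →
      ∃ O : ValuationSubring F, s.ArisesFrom O ∧ ∃ i, (x - (e i : F))⁻¹ ∉ O

/-- The same for the sections of `Gal(M/F) → G_ℚ` which lift to a section of the absolute Galois
group `Gal(Ω/F) → G_ℚ`, without any condition on local points. -/
def BirationallyLiftable {K : Type} [Fintype K] (e : K → ℤ) (d : ℤ) : Prop :=
  ∀ (F Ω M B : Type) [Field F] [Field Ω] [Field M] [Field B] [Algebra ℚ F]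
    [Algebra F Ω] [Algebra ℚ Ω] [Algebra F M] [Algebra ℚ M]
    [Algebra ℚ B] [IsScalarTower ℚ F Ω] [IsScalarTower ℚ F M]
    [IsAlgClosure F Ω] [IsAlgClosure ℚ B]
    (x y : F) (U : Set (ValuationSubring F)) (ι : M →ₐ[F] Ω),
    (∀ O ∈ U, ∀ c : ℚ, algebraMap ℚ F c ∈ O) → ι.fieldRange = unramified F Ω U →
    Transcendental ℚ x → Algebra.IsAlgebraic (IntermediateField.adjoin ℚ {x}) F →
    (d : F) * y ^ 2 = ∏ i, (x - (e i : F)) →
    ∀ (s : GalSection ℚ F M B) (s' : GalSection ℚ F Ω B),
      (∀ g z, ι (s.s g z) = s'.s g (ι z)) →
      ∃ O : ValuationSubring F, s.ArisesFrom O ∧ ∃ i, (x - (e i : F))⁻¹ ∉ O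

/-- The condition on the branch points: for `i ≠ k` there are `l, l'` different from `i` and `k`, such
that the integer `(e_i - e_l) (e_i - e_l') (e_k - e_l) (e_k - e_l')` is not a square. -/
def CrossRatio {K : Type} (e : K → ℤ) : Prop :=
  ∀ i k, i ≠ k → ∃ l l', l ≠ i ∧ l ≠ k ∧ l' ≠ i ∧ l' ≠ k ∧
    ¬ IsSquare ((e i - e l) * (e i - e l') * ((e k - e l) * (e k - e l')))

/-- For every `i`, four of the numbers `1 / (e_l - e_i)`, `l ≠ i`, form an arithmetic progression. -/
def Progressions {K : Type} (e : K → ℤ) : Prop :=
  ∀ i, ∃ (l : Fin 4 → K) (z δ : ℚ), δ ≠ 0 ∧ (∀ j, l j ≠ i) ∧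
    ∀ j : Fin 4, ((e (l j) : ℚ) - e i)⁻¹ = z + (j : ℕ) * δ

/-- the six branch points of the example of genus 2 -/
def ex : Fin 6 → ℤ := ![0, 6, 10, 15, 30, -30]

/-- the consecutive integers `0, 1, …, N - 1` -/
def consecutive (N : ℕ) : Fin N → ℤ := fun i => (i : ℕ)

/-- **Almost all quadratic twists: sections of `π₁` which lift to the cuspidally abelian quotient.** -/
theorem result :
    (∀ (K : Type) [Fintype K] (e : K → ℤ), Function.Injective e → Even (Fintype.card K) →
      6 ≤ Fintype.card K → CrossRatio e → Progressions e → ∃ C : ℝ, ∀ X : ℕ, 2 ≤ X →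
        ({d : ℤ | d.natAbs ≤ X ∧ Squarefree d ∧
            ¬ (Liftable e d ∧ BirationallyLiftable e d)}.ncard : ℝ) ≤
          C * X * (Real.log X) ^ (-(1 / 5) : ℝ)) ∧
    (Function.Injective ex ∧ CrossRatio ex ∧ Progressions ex) ∧
    (∀ N : ℕ, 16 ≤ N → Function.Injective (consecutive N) ∧ CrossRatio (consecutive N) ∧
      Progressions (consecutive N)) := by
  refine ⟨?_, ⟨by decide, Pool.Agent.Zk95.TD.crossRatio_ex, Pool.Agent.Zk95.TD.progressions_ex⟩,
    fun N hN => ⟨Pool.Agent.Zk47.BS.Cons.consecutive_inj N,
      Pool.Agent.Zk47.BS.Cons.crossRatio_cons hN, Pool.Agent.Zk47.BS.Cons.progressions_cons hN⟩⟩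
  intro K _ e he hev hK hCR hPr
  classical
  obtain ⟨C, hC⟩ := Pool.Agent.W262.G3.fin2.{0, 0} Pool.Agent.W623.SecG.secloc2
    Pool.Agent.W623.SecE.secglob K e he hev hK hCR
  refine ⟨C, fun X hX => le_trans ?_ (hC X hX)⟩
  have hfin : {d : ℤ | d.natAbs ≤ X ∧ Squarefree d ∧
      Pool.Agent.W623.SecG.Bad2.{0, 0} e d}.Finite := by
    refine (Finset.finite_toSet (Finset.Icc (-(X : ℤ)) X)).subset ?_
    rintro d ⟨hd1, -⟩
    rw [Finset.mem_coe, Finset.mem_Icc]
    omega
  have hsub : {d : ℤ | d.natAbs ≤ X ∧ Squarefree d ∧
      ¬ (Liftable e d ∧ BirationallyLiftable e d)} ⊆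
      {d : ℤ | d.natAbs ≤ X ∧ Squarefree d ∧ Pool.Agent.W623.SecG.Bad2.{0, 0} e d} := by
    rintro d ⟨hd1, hd2, hd3⟩
    refine ⟨hd1, hd2, ?_⟩
    by_contra hbad
    have h1 : Pool.Agent.Zk47.BS.Liftable e d := Pool.Agent.Zk47.BS.liftable_of he hPr hbad
    exact hd3 ⟨h1, Pool.Agent.Zk47.BS.birLiftable_of h1⟩
  exact_mod_cast Set.ncard_le_ncard hsub hfin

end Pool.Agent.Results.MP_2f3286_ag.LiftableSections
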