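import Mathlib
import Pool.Agent.Zk94.PT.End

/-!
# The section conjecture for twists by primes

For a squarefree integer `D` let `C_D` be the curve of genus `2` with the equation

  `D y² = u (u² - 1) (u² - 9)`.

It has the six rational Weierstrass points with `u = 0, 1, -1, 3, -3, ∞`.  Let `p` be a prime number and

* `D = p`, if `p ≡ 5` or `11` modulo `24` and `p ≠ 5`,
* `D = 2 p`, if `p ≡ 7` or `19` modulo `24`.

So half of all prime numbers occur.  (The curves `C_D`, `C_(-D)` and `C_(3 D)` are isomorphic.)  We prove,
without any unproved hypothesis and with no exceptional curves: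

**(a)** Let `s` be a section of `π₁(U) → G_ℚ`, where `U` is `C_D`, or an open part of `C_D`, or a smooth
curve over `ℚ` with a nonconstant map to `C_D`.  Suppose that `s` is given over `ℚ₂` by a point (or a
cusp) of `U`.  Nothing is assumed at the other primes.  Then this point is above a Weierstrass point
`P` of `C_D`, and the section of the geometrically pro-`2` fundamental group of `C_D` which is induced by
`s` is the section of the rational point `P`: its image is contained in the decomposition group of a
valuation ring above `P`.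

**(b)** (the birational section conjecture for `C_D` and all curves over `C_D`)  Let `F` be the function
field of `C_D` or of a curve over `ℚ` with a nonconstant map to `C_D`, and `Ω` its algebraic closure.
Every section of `Gal(Ω/F) → G_ℚ` arises from exactly one rational point, and this is above a
Weierstrass point of `C_D`.

The fundamental group is described through valuations.  Let `U` be a set of valuation rings of `F` over
`ℚ`, and let `F_U` be the maximal extension of `F` inside `Ω` which is unramified over the elements of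
`U`.  If `U` is the set of the local rings of a smooth curve over `ℚ` with function field `F` then
`π₁(U) = Gal(F_U/F)`.  The theorem holds for all sets `U` and for all copies `M` of `F_U`.

Proof.  Put `x = 30 / (u + 2)`.  The equation of `C_D` becomes `d z² = ∏ (x - e_i)`,
`(e_i) = (0, 6, 10, 15, 30, -30)`.  A section gives square classes `s_kl ∈ ℚˣ / ℚˣ²` such that
`s_kl (x - e_k) (x - e_l)` is a square in the fixed field `L` of the section.  They are unramified at
all primes `q ≠ 2, 3, p`: for `q ≠ 5` by the local theorem of the starting library (`SECLOC2`); for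
`q = 5` the six branch points in the coordinate `u` are all the points of `ℙ¹(𝔽₅)`, the curve has
good reduction, and by a weight argument the inertia group of `5` fixes all the places above the
Weierstrass points of the maximal pro-`2` covering, so that one can take the value of
`s_kl (x - e_k) (x - e_l)` at such a place.  At the prime `p` there is an index `i` such that
`s_kl (e_i - e_k) (e_i - e_l)` is a square in `ℚ_p` for `k, l ≠ i`.  So this class is in the subgroup of
order `4` of the squares modulo `p` in `⟨-1, 2, 3⟩ ≅ ℚ₂ˣ / ℚ₂ˣ²`.  The local point at `2` gives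
`x₀ ∈ ℙ¹(ℚ₂)` with `s_kl = (x₀ - e_k) (x₀ - e_l)` in `ℚ₂ˣ / ℚ₂ˣ²` and `d ∏ (x₀ - e_k)` a square, and a
computation with the residue classes modulo `256` shows that then the classes are trivial: the section
is of the type of the point `P_i` modulo `2`.  For birational sections the local point at `2` exists by
the theorem of Koenigsmann (in the form proved by helper890).  The rest is the theory of the sections
which are of the type of a branch point modulo `2`: `Pool.Agent.Zk12.two_val` for the value of `x` over
`ℚ₂`, and the theorem `Pool.Agent.Zk12.TR.main_all` on the rigidity of pro-`2` sections (helper12,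
helper47, helper95, helper94) for part (a), `Pool.Agent.Zk95.BS.bir_one` for part (b).
-/

set_option autoImplicit false

open IsDedekindDomain NumberField Pool.Agent.W620.SC Pool.Agent.TH954

namespace Pool.Agent.Results.MP_2f3286_ag.PrimeTwists

/-- The maximal geometrically pro-`2` unramified extension of `ℚ(u, y)` in `Ω`: the compositum of the
finite Galois extensions in `Ω` of `ℚ̄(u, y)` whose degree is a power of `2` and in which no valuation
ring over `ℚ̄` ramifies. -/
noncomputable def ProTwo {Ω : Type} [Field Ω] [Algebra ℚ Ω] (u y : Ω) : Set Ω :=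
  Pool.Agent.Y157.PS.geomPro 2 ℚ (IntermediateField.adjoin ℚ {u, y}) Ω

/-- The statement (a) for the curve `C_D : D y² = u (u² - 1) (u² - 9)`: let `F` be a function field of
one variable over `ℚ`, with elements `u`, `y` such that `u` is transcendental over `ℚ` and
`D y² = u (u² - 1) (u² - 9)`.  Let `U` be a set of valuation rings of `F` over `ℚ`, and `M` the maximal
extension `F_U` of `F` in an algebraic closure `Ω` which is unramified over the elements of `U`.  Let `s`
be a continuous section of `Gal(M/F) → G_ℚ` and let `p` be a place of `M` with values in an algebraic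
closure `C` of `ℚ₂` which gives the section over `ℚ₂`.  Then the value of `u` at `p` is `0`, `1`, `-1`,
`3`, `-3` or `∞`, and the automorphisms `s g`, for all `g ∈ G_ℚ`, preserve the valuation ring of `p` on
the part `ProTwo u y` of `M`. -/
def GeometricNearTwo (D : ℤ) : Prop :=
  ∀ (F Ω M B C : Type) [Field F] [Field Ω] [Field M] [Field B] [Field C] [Algebra ℚ F] [Algebra F Ω]
    [Algebra ℚ Ω] [Algebra F M] [Algebra ℚ M] [Algebra ℚ B] [Algebra ℚ C] [Algebra ℚ_[2] C]
    [IsScalarTower ℚ F Ω] [IsScalarTower ℚ F M] [IsAlgClosure F Ω] [IsAlgClosure ℚ B]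
    [IsAlgClosure ℚ_[2] C] (u y : F) (U : Set (ValuationSubring F)) (ι : M →ₐ[F] Ω),
    (∀ O ∈ U, ∀ c : ℚ, algebraMap ℚ F c ∈ O) → ι.fieldRange = unramified F Ω U →
    Transcendental ℚ u → Algebra.IsAlgebraic (IntermediateField.adjoin ℚ {u}) F →
    (D : F) * y ^ 2 = u * (u ^ 2 - 1) * (u ^ 2 - 9) →
    ∀ (s : GalSection ℚ F M B) (p : Plc ℚ M C), s.GivenBy ℚ_[2] p →
      (p.val (algebraMap F M u)⁻¹ 0 ∨
        ∃ e ∈ ({0, 1, -1, 3, -3} : Set ℤ), p.val (algebraMap F M u) (algebraMap ℚ C e)) ∧
      ∀ (g : B ≃ₐ[ℚ] B) (z : M), ι z ∈ ProTwo (algebraMap F Ω u) (algebraMap F Ω y) →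
        (s.s g z ∈ p.W ↔ z ∈ p.W)

/-- The statement (b) for the curve `C_D : D y² = u (u² - 1) (u² - 9)`: let `F` be the function field of
`C_D` or of a covering of it, and `Ω` an algebraic closure of `F`.  EVERY continuous section of
`Gal(Ω/F) → G_ℚ` arises from exactly one rational point `O` of `F`, and there `u` is `∞`, `0`, `1`, `-1`,
`3` or `-3`. -/
def BirationallyGeometric (D : ℤ) : Prop :=
  ∀ (F Ω B : Type) [Field F] [Field Ω] [Field B] [Algebra ℚ F] [Algebra F Ω] [Algebra ℚ Ω]
    [Algebra ℚ B] [IsScalarTower ℚ F Ω] [IsAlgClosure F Ω] [IsAlgClosure ℚ B] (u y : F),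
    Transcendental ℚ u → Algebra.IsAlgebraic (IntermediateField.adjoin ℚ {u}) F →
    (D : F) * y ^ 2 = u * (u ^ 2 - 1) * (u ^ 2 - 9) →
    ∀ s : GalSection ℚ F Ω B,
      (∃! O : ValuationSubring F, s.ArisesFrom O) ∧
        ∀ O : ValuationSubring F, s.ArisesFrom O →
          u ∉ O ∨ ∃ e ∈ ({0, 1, -1, 3, -3} : Set ℤ), (u - (e : F))⁻¹ ∉ O

lemma near_of {d D : ℤ} (hd : d ≠ 0) {r : ℚ} (hr : r ≠ 0) (hdD : (30 : ℚ) ^ 5 * D = d * r ^ 2)
    (hT : Pool.Agent.Zk94.PT.HasType d) : GeometricNearTwo D ∧ BirationallyGeometric D := by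
  have hf : ∀ j : Fin 5, Pool.Agent.Zk94.PT.fp5 j ∈ ({0, 1, -1, 3, -3} : Set ℤ) := by
    intro j
    fin_cases j <;> simp [Pool.Agent.Zk94.PT.fp5]
  constructor
  · intro F Ω M B C _ _ _ _ _ _ _ _ _ _ _ _ _ _ _ _ _ _ u y U ι hU hι hu hF huy s p hp
    obtain ⟨h1, h2⟩ := Pool.Agent.Zk94.PT.partA hd hr hdD hT F Ω M B C u y U ι hU hι hu hF huy s p hp
    refine ⟨?_, h2⟩
    rcases h1 with h1 | ⟨j, hj⟩
    · exact Or.inl h1
    · exact Or.inr ⟨_, hf j, hj⟩
  · intro F Ω B _ _ _ _ _ _ _ _ _ _ u y hu hF huy s
    obtain ⟨h1, h2⟩ := Pool.Agent.Zk94.PT.partB hdD hT F Ω B u y hu hF huy s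
    refine ⟨h1, fun O hO => ?_⟩
    rcases h2 O hO with h | ⟨j, hj⟩
    · exact Or.inl h
    · refine Or.inr ⟨_, hf j, ?_⟩
      rwa [map_intCast] at hj

/-- **The section conjecture for twists by primes.** -/
theorem result : ∀ p : ℕ, p.Prime →
    ((p % 24 = 5 ∨ p % 24 = 11) → p ≠ 5 → GeometricNearTwo p ∧ BirationallyGeometric p) ∧
    ((p % 24 = 7 ∨ p % 24 = 19) →
      GeometricNearTwo (2 * p) ∧ BirationallyGeometric (2 * p)) := by
  intro p hp
  have hp0 : (p : ℤ) ≠ 0 := by exact_mod_cast hp.ne_zero
  constructor
  · intro h h5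
    refine near_of (d := ((30 * p : ℕ) : ℤ)) (by exact_mod_cast mul_ne_zero (by norm_num) hp.ne_zero)
      (r := 900) (by norm_num) (by push_cast; ring) ?_
    rcases h with h | h
    · exact Pool.Agent.Zk94.PT.type5 hp h h5
    · exact Pool.Agent.Zk94.PT.type11 hp h
  · intro h
    refine near_of (d := ((15 * p : ℕ) : ℤ)) (by exact_mod_cast mul_ne_zero (by norm_num) hp.ne_zero)
      (r := 1800) (by norm_num) (by push_cast; ring) ?_
    rcases h with h | h
    · exact Pool.Agent.Zk94.PT.type7 hp h
    · exact Pool.Agent.Zk94.PT.type19 hp h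

end Pool.Agent.Results.MP_2f3286_ag.PrimeTwists
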