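import Pool.Agent.Zk12.TR.All
import Pool.Agent.Zk95.TD.Fin

/-!
# Almost all quadratic twists: a section which is geometric at `2` is the section of a rational point

For squarefree `d` let `C_d` be the curve `d y² = x (x - 6) (x - 10) (x - 15) (x - 30) (x + 30)` of
genus `2`, with its six rational Weierstrass points `P_i = (e_i, 0)`.  We prove, without any unproved
hypothesis:

*For all squarefree `d`, `|d| ≤ X`, with at most `C X (log X)^(-1/5)` exceptions: every section of
`π₁(C_d) → G_ℚ` which over `ℚ₂` is given by a point of `C_d(ℚ₂)` induces on the geometrically pro-`2`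
fundamental group of `C_d` the section of a rational point of `C_d`, one of the six Weierstrass
points.*

Nothing is assumed about the section at the other primes and at infinity, and nothing about `C_d` or
its Jacobian `J_d`: there is no condition on ranks or on Tate–Shafarevich groups.  (The twists `C_d`
have bad reduction at all primes `q ∣ d`, and the Selmer groups of `J_d` are unbounded in the
family.)  The same holds for the sections of `π₁(U)`, where `U` is an open subcurve of `C_d` or a
curve over `ℚ` with a nonconstant map to `C_d`.

The fundamental group is described through valuations.  Let `F` be a function field of one variable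
over `ℚ`, let `Ω` be an algebraic closure of `F`, let `U` be a set of valuation rings of `F` over `ℚ`,
and let `F_U` be the maximal extension of `F` inside `Ω` which is unramified over the valuation rings
in `U`.  If `U` is the set of local rings at the closed points of a smooth curve with function field
`F` then `π₁ = Gal(F_U/F)`, and the map `π₁ → G_ℚ` is the restriction of automorphisms.  Let `N₀`
(`ProTwo`) be the field such that `Gal(N₀/ℚ(x, y))` is the geometrically pro-`2` fundamental group of
`C_d`.  The conclusion is that the local point `p` lies over some `P_i`, and that all automorphisms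
`s g`, `g` in `G_ℚ`, map the valuation ring of `p` on `N₀` to itself.  So the section of
`Gal(N₀/ℚ(x, y)) → G_ℚ` which is induced by `s` has image in the decomposition group of a valuation
ring of `N₀` above the rational point `P_i`; this means that it is the section attached to `P_i`.

Proof.  By a theorem of the starting library (helper623, helper262), for almost all `d` every section
has modulo 2 the type of one branch point `P_i`.  By the descent on an elliptic curve of conductor 24
of `TwistsLocalAtTwo` (in this repository) the local point lies over `P_i`.  Let `W` be the valuation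
ring of `p` on `N₀`, `c` the involution of `N₀` over `ℚ̄(x)` which fixes `W`, and let `t` be the
section of `Gal(N₀/ℚ(x,y))` which is given by the rational point `P_i`, with values in the
decomposition group of `W`.  Let `K_0 = ℚ̄(x)` and let `K_{n+1}` be the field of the elements of `N₀`
which are fixed by all conjugates of `c` under `Gal(N₀/K_n)`.  One shows by induction that `s = t` on
`K_n`.  The first difference between `s` and `t` on `K_{n+1}` is a quadratic character of `G_ℚ`.  It is
trivial at `2`.  At the primes `q ∤ 6 d` it is unramified since `s` and `t` are both trivial on the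
residue field of a Gauss valuation (weights).  At the primes `q ∣ d`, `q ∤ 6`, the inertia group acts
through `s` on the residue field of a Gauss valuation of `N₀` by an involution `c_q` which has a fixed
place `W_q`, and through `t` by `c`; the character is unramified if `W_q = W` on `K_n`.  By the type of
the section `W_q` is above the same branch point as `W`, so this is true for `n = 0`.  Since `W_q` is
fixed by the Frobenius element `t(σ_q)` on `K_{n+1}`, a theorem on Frobenius elements applies: if an
automorphism `φ` of `N₀` acts on the constants as a Frobenius element of `q` and fixes `W`, then every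
place above the Weierstrass points that `φ` fixes on `K_{n+1}` agrees with `W` there.  Its proof uses
the Riemann hypothesis in the form that `φ - q` is surjective on the unramified Kummer classes, and a
parity argument for the orbits of `φ` on the places above the Weierstrass points.  So the character
is unramified outside `6` and trivial at `2`, and so it is trivial.  Finally the union of the `K_n` is
the fixed field of `c`, and `s = t` follows on `N₀`.
-/

set_option autoImplicit false

open IsDedekindDomain NumberField Pool.Agent.W620.SC Pool.Agent.TH954

namespace Pool.Agent.Results.MP_2f3286_ag.TwistsRigid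

/-- The maximal geometrically pro-`2` unramified extension `N₀` of `ℚ(x, y)` in `Ω`: the compositum of
the finite Galois extensions in `Ω` of `ℚ̄(x, y)` whose degree is a power of `2` and in which no
valuation ring over `ℚ̄` ramifies. -/
noncomputable def ProTwo {Ω : Type} [Field Ω] [Algebra ℚ Ω] (x y : Ω) : Set Ω :=
  Pool.Agent.Y157.PS.geomPro 2 ℚ (IntermediateField.adjoin ℚ {x, y}) Ω

/-- the six branch points -/
def e : Fin 6 → ℤ := ![0, 6, 10, 15, 30, -30]

/-- The condition on `d`: let `F` be a function field of one variable over `ℚ`, with elements `x`, `y`
such that `x` is transcendental over `ℚ` and `d y² = ∏ (x - e_i)`, for example the function field of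
the curve `C_d` with this equation.  Let `U` be a set of valuation rings of `F` over `ℚ`, and `M` the
maximal extension `F_U` of `F` in an algebraic closure `Ω` which is unramified over the elements of
`U`.  Then for every continuous section `s` of `Gal(M/F) → G_ℚ` there is an `i` such that, for all
places `p` of `M` with values in an algebraic closure `C` of `ℚ₂` which give the section over `ℚ₂`,
the value of `x` at `p` is `e_i`, and the automorphisms `s g`, for all `g`, preserve the valuation
ring of `p` on the part `N₀` of `M`. -/
def RigidAtTwo (d : ℤ) : Prop :=
  ∀ (F Ω M B C : Type) [Field F] [Field Ω] [Field M] [Field B] [Field C] [Algebra ℚ F] [Algebra F Ω]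
    [Algebra ℚ Ω] [Algebra F M] [Algebra ℚ M] [Algebra ℚ B] [Algebra ℚ C] [Algebra ℚ_[2] C]
    [IsScalarTower ℚ F Ω] [IsScalarTower ℚ F M] [IsAlgClosure F Ω] [IsAlgClosure ℚ B]
    [IsAlgClosure ℚ_[2] C] (x y : F) (U : Set (ValuationSubring F)) (ι : M →ₐ[F] Ω),
    (∀ O ∈ U, ∀ c : ℚ, algebraMap ℚ F c ∈ O) → ι.fieldRange = unramified F Ω U →
    Transcendental ℚ x → Algebra.IsAlgebraic (IntermediateField.adjoin ℚ {x}) F →
    (d : F) * y ^ 2 = ∏ i, (x - (e i : F)) →
    ∀ s : GalSection ℚ F M B, ∃ i, ∀ p : Plc ℚ M C, s.GivenBy ℚ_[2] p →
      p.val (algebraMap F M x) (algebraMap ℚ C (e i)) ∧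
      ∀ (g : B ≃ₐ[ℚ] B) (z : M), ι z ∈ ProTwo (algebraMap F Ω x) (algebraMap F Ω y) →
        (s.s g z ∈ p.W ↔ z ∈ p.W)

/-- `N₀` is contained in every such `M`. -/
theorem proTwo_unramified {F Ω : Type} [Field F] [Field Ω] [Algebra ℚ F] [Algebra F Ω]
    [Algebra ℚ Ω] [IsScalarTower ℚ F Ω] [IsAlgClosed Ω] [Algebra.IsAlgebraic F Ω]
    (x y : F) (hx : Transcendental ℚ x)
    (hF : Algebra.IsAlgebraic (IntermediateField.adjoin ℚ {x}) F) (U : Set (ValuationSubring F))
    (hU : ∀ O ∈ U, ∀ c : ℚ, algebraMap ℚ F c ∈ O) :
    ProTwo (algebraMap F Ω x) (algebraMap F Ω y) ⊆ unramified F Ω U :=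
  haveI : Fact (Nat.Prime 2) := ⟨Nat.prime_two⟩
  fun z hz => Pool.Agent.Y158.FQ.geomPro_unr' 2 x hx hF _
    (IntermediateField.subset_adjoin ℚ _ (by simp)) U hU z
    ((Pool.Agent.Y158.FQ.geomPro_base (k := ℚ) (K := ℚ) (X := x) (Y := y) (c := 1) (c' := 1)
      (one_mem _) (one_mem _) one_ne_zero one_ne_zero (by rw [one_mul]) (by rw [one_mul]) z).2 hz)

end Pool.Agent.Results.MP_2f3286_ag.TwistsRigid

open Pool.Agent.Results.MP_2f3286_ag.TwistsRigid in
/-- **Almost all quadratic twists are rigid.**  For all squarefree `d`, `|d| ≤ X`, with at most
`C X (log X)^(-1/5)` exceptions, every section of `π₁(C_d) → G_ℚ` (or of `π₁` of an open subcurve, or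
of a curve over `C_d`) which over `ℚ₂` is given by a local point induces on the geometrically pro-`2`
fundamental group of `C_d` the section of a rational Weierstrass point. -/
theorem Pool.Agent.Results.MP_2f3286_ag.TwistsRigid.result :
    ∃ C : ℝ, ∀ X : ℕ, 2 ≤ X →
      ({d : ℤ | d.natAbs ≤ X ∧ Squarefree d ∧ ¬ RigidAtTwo d}.ncard : ℝ) ≤
        C * X * (Real.log X) ^ (-(1 / 5) : ℝ) :=
  Pool.Agent.Zk95.TD.fin Pool.Agent.Zk12.TR.main_all
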